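import Mathlib
import Pool.Agent.V11251.Light

/-!
# Timelike relatedness is existential-universal definable from lightlike relatedness

For every `n ≥ 3` there is one existential-universal formula in the language with one binary
relation symbol (read as lightlike relatedness) which defines timelike relatedness in `F^n`, for
every Euclidean ordered field `F` simultaneously.
-/

set_option autoImplicit false

open FirstOrder FirstOrder.Language

universe u v

namespace Pool.Agent.Results.MP_446ff5_lc.TimelikeExistsForall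

/-- The relation symbols of the language: one binary symbol `lam`. -/
inductive LightRel : ℕ → Type
  | lam : LightRel 2

/-- The first-order language with exactly one symbol, a binary relation symbol. -/
def lightLang : FirstOrder.Language.{0, 0} := ⟨fun _ => Empty, LightRel⟩

/-- `μ(x,y) = (x_0-y_0)^2 - ∑_{i ≥ 1} (x_i-y_i)^2`; the coordinate `0` is the time coordinate. -/
def mu {F : Type u} [Field F] {n : ℕ} (x y : Fin n → F) : F :=
  ∑ i : Fin n, (if i.val = 0 then 1 else -1) * (x i - y i) ^ 2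

/-- Lightlike relatedness. -/
def Lightlike {F : Type u} [Field F] {n : ℕ} (x y : Fin n → F) : Prop :=
  mu x y = 0 ∧ x ≠ y

/-- Timelike relatedness. -/
def Timelike {F : Type u} [Field F] [LinearOrder F] {n : ℕ} (x y : Fin n → F) : Prop :=
  0 < mu x y

/-- The structure `(F^n, λ)`: the only relation symbol is read as lightlike relatedness. -/
def minkowski (F : Type u) [Field F] (n : ℕ) : lightLang.Structure (Fin n → F) where
  funMap := fun f _ => f.elim
  RelMap := fun r w => match r, w with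
    | LightRel.lam, w => Lightlike (w 0) (w 1)

/-- Existential-universal formulas: a block of existential quantifiers, followed by a block of
universal quantifiers, followed by a quantifier-free formula. (`IsUniversal` is Mathlib's
predicate: a block of universal quantifiers in front of a quantifier-free formula.) -/
inductive IsExistsForall {L : FirstOrder.Language.{0, 0}} {α : Type} :
    ∀ {k : ℕ}, L.BoundedFormula α k → Prop
  | of_isUniversal {k : ℕ} {φ : L.BoundedFormula α k} (h : φ.IsUniversal) : IsExistsForall φ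
  | ex {k : ℕ} {φ : L.BoundedFormula α (k + 1)} (h : IsExistsForall φ) : IsExistsForall φ.ex

/-- An ordered field is Euclidean if its nonnegative elements are squares. -/
def Euclidean (F : Type u) [Field F] [LinearOrder F] : Prop :=
  ∀ a : F, 0 ≤ a → ∃ b : F, a = b * b

/-! ### The formula -/

/-- the relation symbol -/
def lamS : lightLang.Relations 2 := LightRel.lam

/-- the atomic formula `lam s t` -/
def la {k : ℕ} (s t : lightLang.Term (Fin 2 ⊕ Fin k)) : lightLang.BoundedFormula (Fin 2) k :=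
  lamS.boundedFormula₂ s t

/-- free variable -/
def fv {k : ℕ} (i : Fin 2) : lightLang.Term (Fin 2 ⊕ Fin k) := Term.var (Sum.inl i)

/-- bound variable -/
def bv {k : ℕ} (i : Fin k) : lightLang.Term (Fin 2 ⊕ Fin k) := Term.var (Sum.inr i)

/-- quantifier-free part of `σ(s,t)` with witness `w` and universal variable `v` -/
def sg (s t w v : lightLang.Term (Fin 2 ⊕ Fin 7)) : lightLang.BoundedFormula (Fin 2) 7 :=
  ((Term.bdEqual s t).not ⊓ (la s t).not) ⊓ ((la w s ⊓ (la w t).not) ⊓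
    (la v w ⊓ (la v s ⊓ la v t)).not)

/-- the matrix of the formula -/
def psi : lightLang.BoundedFormula (Fin 2) 7 :=
  (((Term.bdEqual (fv 0) (fv 1)).not ⊓ (la (fv 0) (fv 1)).not) ⊓ la (bv 0) (bv 1)) ⊓
    ((sg (fv 0) (bv 0) (bv 2) (bv 6) ⊓ sg (fv 1) (bv 0) (bv 3) (bv 6)) ⊓
     (sg (fv 0) (bv 1) (bv 4) (bv 6) ⊓ sg (fv 1) (bv 1) (bv 5) (bv 6))) ⊓
    ((la (bv 6) (fv 0) ⊓ (la (bv 6) (fv 1) ⊓ la (bv 6) (bv 0))).not ⊓
     (la (bv 6) (fv 0) ⊓ (la (bv 6) (fv 1) ⊓ la (bv 6) (bv 1))).not)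

theorem la_qf {k : ℕ} (s t : lightLang.Term (Fin 2 ⊕ Fin k)) : (la s t).IsQF :=
  (BoundedFormula.IsAtomic.rel _ _).isQF

theorem eq_qf {k : ℕ} (s t : lightLang.Term (Fin 2 ⊕ Fin k)) : (Term.bdEqual s t).IsQF :=
  (BoundedFormula.IsAtomic.equal _ _).isQF

theorem sg_qf (s t w v : lightLang.Term (Fin 2 ⊕ Fin 7)) : (sg s t w v).IsQF := by
  unfold sg
  exact ((eq_qf _ _).not.inf (la_qf _ _).not).inf (((la_qf _ _).inf (la_qf _ _).not).inf
    ((la_qf _ _).inf ((la_qf _ _).inf (la_qf _ _))).not)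

theorem psi_qf : psi.IsQF := by
  unfold psi
  exact ((((eq_qf _ _).not.inf (la_qf _ _).not).inf (la_qf _ _)).inf
    (((sg_qf _ _ _ _).inf (sg_qf _ _ _ _)).inf ((sg_qf _ _ _ _).inf (sg_qf _ _ _ _)))).inf
    (((la_qf _ _).inf ((la_qf _ _).inf (la_qf _ _))).not.inf
      ((la_qf _ _).inf ((la_qf _ _).inf (la_qf _ _))).not)

/-- the formula -/
def phi : lightLang.Formula (Fin 2) := psi.all.ex.ex.ex.ex.ex.ex

theorem phi_ea : IsExistsForall phi :=
  .ex (.ex (.ex (.ex (.ex (.ex (.of_isUniversal (.all (.of_isQF psi_qf))))))))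

section real

variable {F : Type u} [Field F] {n : ℕ}

theorem la_realize {k : ℕ} (s t : lightLang.Term (Fin 2 ⊕ Fin k)) (p : Fin 2 → Fin n → F)
    (q : Fin k → Fin n → F) :
    (@BoundedFormula.Realize lightLang (Fin n → F) (minkowski F n) (Fin 2) k (la s t) p q) ↔
      Lightlike (@Term.realize lightLang (Fin n → F) (minkowski F n) _ (Sum.elim p q) s)
        (@Term.realize lightLang (Fin n → F) (minkowski F n) _ (Sum.elim p q) t) := by
  letI := minkowski F n
  unfold la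
  rw [BoundedFormula.realize_rel₂]
  rfl

end real

theorem mu_eq {F : Type u} [Field F] [LinearOrder F] [IsStrictOrderedRing F] {m : ℕ}
    (x y : Fin (m + 3) → F) : mu x y = Pool.Agent.V11251.Light.ip (x - y) (x - y) := by
  unfold mu Pool.Agent.V11251.Light.ip
  rw [Fin.sum_univ_succ]
  simp only [Fin.val_zero, if_true, Fin.val_succ, Nat.succ_ne_zero, if_false, Pi.sub_apply]
  rw [one_mul, sub_eq_add_neg (_ * _), ← Finset.sum_neg_distrib]
  congr 1
  · ring
  · exact Finset.sum_congr rfl fun i _ => by ring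

open Pool.Agent.V11251.Light in
theorem lightlike_iff {F : Type u} [Field F] [LinearOrder F] [IsStrictOrderedRing F] {m : ℕ}
    (x y : Fin (m + 3) → F) : Lightlike x y ↔ lam x y := by
  unfold Lightlike lam
  rw [mu_eq]

theorem phi_realize {F : Type u} [Field F] {n : ℕ} (x y : Fin n → F) :
    (@Formula.Realize lightLang (Fin n → F) (minkowski F n) (Fin 2) phi ![x, y]) ↔
      ∃ z₁ z₂ a b c d : Fin n → F, ∀ v : Fin n → F,
        (((x ≠ y ∧ ¬ Lightlike x y) ∧ Lightlike z₁ z₂) ∧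
          ((((x ≠ z₁ ∧ ¬ Lightlike x z₁) ∧ ((Lightlike a x ∧ ¬ Lightlike a z₁) ∧
            ¬ (Lightlike v a ∧ Lightlike v x ∧ Lightlike v z₁))) ∧
           ((y ≠ z₁ ∧ ¬ Lightlike y z₁) ∧ ((Lightlike b y ∧ ¬ Lightlike b z₁) ∧
            ¬ (Lightlike v b ∧ Lightlike v y ∧ Lightlike v z₁)))) ∧
          (((x ≠ z₂ ∧ ¬ Lightlike x z₂) ∧ ((Lightlike c x ∧ ¬ Lightlike c z₂) ∧
            ¬ (Lightlike v c ∧ Lightlike v x ∧ Lightlike v z₂))) ∧
           ((y ≠ z₂ ∧ ¬ Lightlike y z₂) ∧ ((Lightlike d y ∧ ¬ Lightlike d z₂) ∧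
            ¬ (Lightlike v d ∧ Lightlike v y ∧ Lightlike v z₂)))))) ∧
        (¬ (Lightlike v x ∧ Lightlike v y ∧ Lightlike v z₁) ∧
          ¬ (Lightlike v x ∧ Lightlike v y ∧ Lightlike v z₂)) := by
  letI := minkowski F n
  unfold Formula.Realize phi
  simp only [BoundedFormula.realize_ex, BoundedFormula.realize_all]
  unfold psi sg
  simp only [BoundedFormula.realize_inf, BoundedFormula.realize_not, BoundedFormula.realize_bdEqual,
    la_realize]
  rfl

open Pool.Agent.V11251.Light in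
theorem result (n : ℕ) (hn : 3 ≤ n) :
    ∃ φ : lightLang.Formula (Fin 2), IsExistsForall φ ∧
      ∀ (F : Type u) [Field F] [LinearOrder F] [IsStrictOrderedRing F], Euclidean F →
        ∀ x y : Fin n → F,
          (@Formula.Realize lightLang (Fin n → F) (minkowski F n) (Fin 2) φ ![x, y]) ↔
            Timelike x y := by
  refine ⟨phi, phi_ea, ?_⟩
  intro F _ _ _ hE x y
  obtain ⟨m, rfl⟩ : ∃ m, n = m + 3 := ⟨n - 3, by omega⟩
  have hF : ∀ a : F, 0 ≤ a → IsSquare a := hE
  rw [phi_realize]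
  simp only [lightlike_iff, Timelike, mu_eq]
  constructor
  · rintro ⟨z₁, z₂, a, b, c, d, H⟩
    have H0 := H x
    obtain ⟨⟨⟨⟨hne, hl⟩, hz⟩, ⟨⟨⟨h11, h12⟩, ⟨h13, h14⟩, _⟩, ⟨h21, h22⟩, ⟨h23, h24⟩, _⟩,
      ⟨⟨h31, h32⟩, ⟨h33, h34⟩, _⟩, ⟨h41, h42⟩, ⟨h43, h44⟩, _⟩, _⟩ := H0
    have s1 : ip (x - z₁) (x - z₁) < 0 :=
      sigma_mpr h11 h12 h13 h14 fun v => (H v).1.2.1.1.2.2
    have s2 : ip (y - z₁) (y - z₁) < 0 :=
      sigma_mpr h21 h22 h23 h24 fun v => (H v).1.2.1.2.2.2
    have s3 : ip (x - z₂) (x - z₂) < 0 :=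
      sigma_mpr h31 h32 h33 h34 fun v => (H v).1.2.2.1.2.2
    have s4 : ip (y - z₂) (y - z₂) < 0 :=
      sigma_mpr h41 h42 h43 h44 fun v => (H v).1.2.2.2.2.2
    by_contra hcon
    have hneg : ip (x - y) (x - y) < 0 := by
      rcases lt_or_eq_of_le (not_lt.1 hcon) with h | h
      · exact h
      · exact absurd ⟨h, hne⟩ hl
    obtain ⟨t₁, ht₁⟩ := exists_common hF hneg s1 s2 fun v => (H v).2.1
    obtain ⟨t₂, ht₂⟩ := exists_common hF hneg s3 s4 fun v => (H v).2.2
    have e1 : z₁ - z₂ = (t₁ - t₂) • (y - x) := by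
      rw [sub_smul, ← ht₁, ← ht₂]; abel
    have e2 := hz.1
    rw [e1, ip_smul_left, ip_smul_right, ip_sub_swap y x] at e2
    have e3 : t₁ - t₂ = 0 := by
      rcases mul_eq_zero.1 e2 with h | h
      · exact h
      · rcases mul_eq_zero.1 h with h | h
        · exact h
        · exact absurd h hneg.ne
    apply hz.2
    rw [e3, zero_smul] at e1
    exact sub_eq_zero.1 e1
  · intro h
    obtain ⟨z₁, z₂, hz, s1, s2, s3, s4⟩ := exists_witness h
    obtain ⟨a, a1, a2, a3⟩ := sigma_mp hF s1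
    obtain ⟨b, b1, b2, b3⟩ := sigma_mp hF s2
    obtain ⟨c, c1, c2, c3⟩ := sigma_mp hF s3
    obtain ⟨d, d1, d2, d3⟩ := sigma_mp hF s4
    have ne : ∀ {p q : Fin (m + 3) → F}, ip (p - q) (p - q) < 0 → p ≠ q := by
      rintro p q hpq rfl
      simp [ip] at hpq
    have nl : ∀ {p q : Fin (m + 3) → F}, ip (p - q) (p - q) < 0 → ¬ lam p q := by
      rintro p q hpq hh
      rw [hh.1] at hpq
      exact lt_irrefl _ hpq
    refine ⟨z₁, z₂, a, b, c, d, fun v => ⟨⟨⟨⟨?_, ?_⟩, hz⟩,
      ⟨⟨⟨ne s1, nl s1⟩, ⟨a1, a2⟩, a3 v⟩, ⟨ne s2, nl s2⟩, ⟨b1, b2⟩, b3 v⟩,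
      ⟨⟨ne s3, nl s3⟩, ⟨c1, c2⟩, c3 v⟩, ⟨ne s4, nl s4⟩, ⟨d1, d2⟩, d3 v⟩, ?_, ?_⟩⟩
    · rintro rfl
      simp [ip] at h
    · intro hh
      rw [hh.1] at h
      exact lt_irrefl _ h
    · rintro ⟨h1, h2, h3⟩
      exact no_common h s1 s2 h1.1 h2.1 h3.1
    · rintro ⟨h1, h2, h3⟩
      exact no_common h s3 s4 h1.1 h2.1 h3.1

end Pool.Agent.Results.MP_446ff5_lc.TimelikeExistsForall
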